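import Pool.Graph.R_seed8.H294R2.BF.Cube

/-!
# Monotone sets with a small additive complement

Let `A ⊆ 𝔽₂ⁿ` be closed under replacing coordinates by zero, with respect to some basis and some origin (for example a
Hamming ball), and let `A + S = 𝔽₂ⁿ` for a set `S` with `K` elements. Then `A + A` contains a subspace of codimension at
most `K - 1`. So the answer to the question is positive for these sets, with `c(K) = K - 1`; the Hamming balls show that
`c(K)` is at least a constant times `√K` for them.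

More generally, for a basis and a set `A` consider the family of the sets `T` of basis vectors such that `A` contains
a coset of the span of `T` (the sets which are strongly shattered by `A`). If this family, as a subset of `𝔽₂ⁿ`, has
an additive complement with `K` elements, then `A + A` contains a coset of codimension at most `K - 1`.

For every set `A` with an additive complement with `K` elements and for every basis, `A + A` contains a vector with at
most `K - 1` zero coordinates.

Proof. The translates of `A` colour the cube `{0, 1}ⁿ` with `K` colours. By a cubical form of Tucker's lemma (from the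
library) there are two points of the same colour which are different at all but at most `K - 1` coordinates. If
`A` is closed under replacing coordinates by zero, then two elements of `A` whose sum has at most `K - 1` zero
coordinates give a subspace of codimension at most `K - 1` in `A + A`.
-/

set_option autoImplicit false
open scoped Pointwise

namespace Pool.Agent.Results.MP_73b4f2_co.MonotoneSets

/-- `F` is closed under replacing coordinates by zero. -/
def DownSet {n : ℕ} (F : Finset (Fin n → ZMod 2)) : Prop :=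
  ∀ x ∈ F, ∀ y : Fin n → ZMod 2, (∀ i, y i = 0 ∨ y i = x i) → y ∈ F

/-- `A` is closed under replacing coordinates by zero, for the coordinates given by `e` and the origin `x₀`. -/
def DownSetFor {n : ℕ} (e : (Fin n → ZMod 2) ≃ₗ[ZMod 2] (Fin n → ZMod 2)) (x₀ : Fin n → ZMod 2)
    (A : Finset (Fin n → ZMod 2)) : Prop :=
  DownSet (A.image fun x => e (x + x₀))

/-- The vectors `x` such that, in the coordinates given by `e`, the set `A` contains a translate of the cube of all
vectors `v` with `v i = 0` or `v i = x i` for all `i`; they correspond to the sets which are strongly shattered by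
`A`. -/
noncomputable def cubes {n : ℕ} (e : (Fin n → ZMod 2) ≃ₗ[ZMod 2] (Fin n → ZMod 2))
    (A : Finset (Fin n → ZMod 2)) : Finset (Fin n → ZMod 2) :=
  open Classical in
  Finset.univ.filter fun x => ∃ y : Fin n → ZMod 2, ∀ v : Fin n → ZMod 2,
    (∀ i, v i = 0 ∨ v i = x i) → y + e.symm v ∈ A

/-- `S` is an additive complement of `A`. -/
def IsComplement {n : ℕ} (A S : Finset (Fin n → ZMod 2)) : Prop :=
  ∀ x : Fin n → ZMod 2, ∃ a ∈ A, ∃ s ∈ S, x = a + s

theorem mem_cubes {n : ℕ} (e : (Fin n → ZMod 2) ≃ₗ[ZMod 2] (Fin n → ZMod 2)) (A : Finset (Fin n → ZMod 2))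
    (x : Fin n → ZMod 2) : x ∈ cubes e A ↔ ∃ y : Fin n → ZMod 2, ∀ v : Fin n → ZMod 2,
      (∀ i, v i = 0 ∨ v i = x i) → y + e.symm v ∈ A := by
  unfold cubes
  rw [Finset.mem_filter]
  exact ⟨fun h => h.2, fun h => ⟨Finset.mem_univ _, h⟩⟩

/-- the vectors which are zero on a set of coordinates -/
def vanish {n : ℕ} (U : Finset (Fin n)) : Submodule (ZMod 2) (Fin n → ZMod 2) where
  carrier := {v | ∀ i ∈ U, v i = 0}
  add_mem' := by
    intro v w hv hw i hi
    rw [Pi.add_apply, hv i hi, hw i hi, add_zero]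
  zero_mem' := fun i _ => rfl
  smul_mem' := by
    intro c v hv i hi
    rw [Pi.smul_apply, hv i hi, smul_zero]

theorem codim_vanish {n : ℕ} (U : Finset (Fin n)) : n ≤ U.card + Module.finrank (ZMod 2) (vanish U) := by
  obtain ⟨f, hf⟩ : ∃ f : (Fin n → ZMod 2) →ₗ[ZMod 2] (U → ZMod 2), f = LinearMap.funLeft (ZMod 2) (ZMod 2) Subtype.val :=
    ⟨_, rfl⟩
  have h1 : LinearMap.ker f = vanish U := by
    ext v
    rw [LinearMap.mem_ker, hf]
    constructor
    · intro h i hi
      exact congrFun h ⟨i, hi⟩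
    · intro h
      funext i
      exact h i.1 i.2
  have h2 := LinearMap.finrank_range_add_finrank_ker f
  have h3 : Module.finrank (ZMod 2) (LinearMap.range f) ≤ U.card := by
    refine (Submodule.finrank_le _).trans ?_
    rw [Module.finrank_fintype_fun_eq_card, Fintype.card_coe]
  rw [h1, Module.finrank_fin_fun] at h2
  omega

theorem add_self2 {n : ℕ} (x : Fin n → ZMod 2) : x + x = 0 := by
  funext i
  exact CharTwo.add_self_eq_zero (x i)

/-- **Colourings of the cube.** -/
theorem colour {n K : ℕ} (C : ℕ → (Fin n → Bool) → Prop) (hcov : ∀ x, ∃ k, k < K ∧ C k x)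
    (hfar : ∀ (k : ℕ) (x y : Fin n → Bool), C k x → C k (fun j => !y j) →
      K ≤ (Finset.univ.filter fun j => x j ≠ y j).card) : False := by
  classical
  obtain ⟨Q, hQ⟩ : ∃ Q : (Fin n → Bool) → Set ℕ, Q = fun x => {k | k < K ∧ (C k x ∨ C k (fun j => !x j))} :=
    ⟨_, rfl⟩
  obtain ⟨lab, hlab⟩ : ∃ lab : (Fin n → Bool) → ℕ, lab = fun x => sInf (Q x) := ⟨_, rfl⟩
  have hii : ∀ x : Fin n → Bool, (fun j => !(fun j => !x j) j) = x := by
    intro x
    funext j
    exact Bool.not_not (x j)
  have hQi : ∀ x, Q (fun j => !x j) = Q x := by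
    intro x
    rw [hQ]
    ext k
    show (k < K ∧ (C k (fun j => !x j) ∨ C k (fun j => !(fun j => !x j) j))) ↔
      (k < K ∧ (C k x ∨ C k (fun j => !x j)))
    rw [hii]
    tauto
  have hne : ∀ x, (Q x).Nonempty := by
    intro x
    obtain ⟨k, hk, hc⟩ := hcov x
    refine ⟨k, ?_⟩
    rw [hQ]
    exact ⟨hk, Or.inl hc⟩
  have hmem : ∀ x, lab x < K ∧ (C (lab x) x ∨ C (lab x) (fun j => !x j)) := by
    intro x
    have h := Nat.sInf_mem (hne x)
    rw [hlab]
    rw [hQ] at h ⊢
    exact h
  have hmin : ∀ x k, k < K → (C k x ∨ C k (fun j => !x j)) → lab x ≤ k := by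
    intro x k hk hc
    rw [hlab]
    apply Nat.sInf_le
    rw [hQ]
    exact ⟨hk, hc⟩
  have hK : 0 < K := by
    obtain ⟨k, hk, -⟩ := hcov fun _ => true
    omega
  have hno : ∀ k x, C k x → C k (fun j => !x j) → False := by
    intro k x h1 h2
    have h3 := hfar k x x h1 h2
    have h4 : (Finset.univ.filter fun j => x j ≠ x j).card = 0 := by
      rw [Finset.card_eq_zero, Finset.filter_eq_empty_iff]
      intro j _ h
      exact h rfl
    omega
  have hlt : ∀ x, lab x < K - 1 := by
    intro x
    by_contra hcon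
    obtain ⟨k, hk, hc⟩ := hcov x
    obtain ⟨k', hk', hc'⟩ := hcov fun j => !x j
    have h1 := hmin x k hk (Or.inl hc)
    have h2 := hmin x k' hk' (Or.inr hc')
    have h3 : k = k' := by omega
    subst h3
    exact hno k x hc hc'
  obtain ⟨L, hL⟩ : ∃ L : (Fin n → Bool) → Fin (K - 1) × Bool,
    L = fun x => (⟨lab x, hlt x⟩, decide (C (lab x) x)) := ⟨_, rfl⟩
  have hlabi : ∀ x, lab (fun j => !x j) = lab x := by
    intro x
    rw [hlab]
    show sInf (Q (fun j => !x j)) = sInf (Q x)
    rw [hQi]
  have hodd : ∀ x, L (fun j => !x j) = ((L x).1, !(L x).2) := by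
    intro x
    rw [hL]
    refine Prod.ext (Fin.ext (hlabi x)) ?_
    show decide (C (lab (fun j => !x j)) (fun j => !x j)) = !decide (C (lab x) x)
    rw [hlabi x]
    rcases (hmem x).2 with h | h
    · have h2 : ¬ C (lab x) (fun j => !x j) := fun h2 => hno _ _ h h2
      rw [decide_eq_false h2, decide_eq_true h]
      rfl
    · have h2 : ¬ C (lab x) x := fun h2 => hno _ _ h2 h
      rw [decide_eq_true h, decide_eq_false h2]
      rfl
  obtain ⟨S, x, P, hS, hSP, hP⟩ := H294BF.cube_tucker L hodd
  have hPne : P.Nonempty := by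
    rw [← Finset.card_pos]
    exact lt_of_lt_of_le hS.card_pos hSP
  obtain ⟨i, hi⟩ := hPne
  obtain ⟨⟨y, hy, hLy⟩, ⟨z, hz, hLz⟩⟩ := hP i hi
  rw [hL] at hLy hLz
  have h1 := (Prod.mk.inj hLy).1
  have h2 := (Prod.mk.inj hLy).2
  have h3 := (Prod.mk.inj hLz).1
  have h4 := (Prod.mk.inj hLz).2
  have h5 : lab y = lab z := by
    have := h1.trans h3.symm
    exact congrArg Fin.val this
  have h6 : C (lab y) y := of_decide_eq_true h2
  have h7 : ¬ C (lab z) z := of_decide_eq_false h4
  have h8 : C (lab y) (fun j => !z j) := by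
    rw [h5]
    exact (hmem z).2.resolve_left h7
  have h9 := hfar _ _ _ h6 h8
  have h10 : (Finset.univ.filter fun j => y j ≠ z j).card ≤ S.card := by
    apply Finset.card_le_card
    intro j hj
    rw [Finset.mem_filter] at hj
    by_contra hjS
    exact hj.2 ((hy j hjS).trans (hz j hjS).symm)
  have h11 : P.card ≤ K - 1 := by
    have := Finset.card_le_univ P
    rwa [Fintype.card_fin] at this
  omega

/-- **A vector of `A + A` with few zero coordinates.** -/
theorem ones {n K : ℕ} (e : (Fin n → ZMod 2) ≃ₗ[ZMod 2] (Fin n → ZMod 2)) (A S : Finset (Fin n → ZMod 2))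
    (hS : IsComplement A S) (hK : S.card = K) :
    ∃ a ∈ A, ∃ b ∈ A, (Finset.univ.filter fun i => e (a + b) i = 0).card ≤ K - 1 := by
  classical
  by_contra hcon
  push Not at hcon
  have hz : ∀ u v : ZMod 2, u + v = 0 → u = v := by decide
  obtain ⟨β, hβ⟩ : ∃ β : (Fin n → Bool) → Fin n → ZMod 2, β = fun x j => if x j then 1 else 0 := ⟨_, rfl⟩
  obtain ⟨g⟩ : Nonempty (S ≃ Fin K) := by
    rw [← hK]
    exact ⟨S.equivFin⟩
  have hK0 : 0 < K := by
    obtain ⟨a, -, s, hs, -⟩ := hS 0
    rw [← hK]
    exact Finset.card_pos.2 ⟨s, hs⟩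
  refine colour (n := n) (K := K)
    (fun k x => ∃ h : k < K, e.symm (β x) + ((g.symm ⟨k, h⟩ : S) : Fin n → ZMod 2) ∈ A) ?_ ?_
  · intro x
    obtain ⟨a, ha, s, hs, hx⟩ := hS (e.symm (β x))
    refine ⟨(g ⟨s, hs⟩).1, (g ⟨s, hs⟩).2, (g ⟨s, hs⟩).2, ?_⟩
    have h1 : g.symm ⟨(g ⟨s, hs⟩).1, (g ⟨s, hs⟩).2⟩ = ⟨s, hs⟩ := g.symm_apply_apply _
    rw [h1, hx, add_assoc, add_self2, add_zero]
    exact ha
  · rintro k x y ⟨h, hx⟩ ⟨h', hy⟩
    have h1 := hcon _ hx _ hy
    obtain ⟨s, hs⟩ : ∃ s : Fin n → ZMod 2, s = ((g.symm ⟨k, h⟩ : S) : Fin n → ZMod 2) := ⟨_, rfl⟩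
    have e1 : e (e.symm (β x) + ((g.symm ⟨k, h⟩ : S) : Fin n → ZMod 2) +
        (e.symm (β fun j => !y j) + ((g.symm ⟨k, h'⟩ : S) : Fin n → ZMod 2))) = β x + β fun j => !y j := by
      rw [← hs]
      have e2 : e.symm (β x) + s + (e.symm (β fun j => !y j) + s) =
          e.symm (β x) + e.symm (β fun j => !y j) + (s + s) := by abel
      rw [e2, add_self2, add_zero, ← map_add, e.apply_symm_apply]
    rw [e1] at h1
    have h2 : (Finset.univ.filter fun i => (β x + β fun j => !y j) i = 0).card ≤
        (Finset.univ.filter fun j => x j ≠ y j).card := by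
      apply Finset.card_le_card
      intro i hi
      rw [Finset.mem_filter] at hi ⊢
      refine ⟨Finset.mem_univ _, fun hxy => ?_⟩
      have h5 := hz _ _ hi.2
      have h6 : ∀ c : Bool, ¬ ((if c = true then (1 : ZMod 2) else 0) = if (!c) = true then 1 else 0) := by decide
      have h7 : (if x i = true then (1 : ZMod 2) else 0) = if (!y i) = true then 1 else 0 := by
        rw [hβ] at h5
        exact h5
      rw [← hxy] at h7
      exact h6 _ h7
    omega

/-- **Two elements which cover almost all coordinates.** -/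
theorem two {n K : ℕ} (F S : Finset (Fin n → ZMod 2)) (hS : IsComplement F S) (hK : S.card = K) :
    ∃ a ∈ F, ∃ b ∈ F, (Finset.univ.filter fun i => a i = 0 ∧ b i = 0).card ≤ K - 1 := by
  obtain ⟨a, ha, b, hb, h⟩ := ones (LinearEquiv.refl (ZMod 2) (Fin n → ZMod 2)) F S hS hK
  refine ⟨a, ha, b, hb, le_trans (Finset.card_le_card ?_) h⟩
  intro i hi
  rw [Finset.mem_filter] at hi ⊢
  refine ⟨Finset.mem_univ _, ?_⟩
  show a i + b i = 0
  rw [hi.2.1, hi.2.2, add_zero]

/-- the theorem in terms of cubes -/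
theorem main {n K : ℕ} (e : (Fin n → ZMod 2) ≃ₗ[ZMod 2] (Fin n → ZMod 2)) (A S : Finset (Fin n → ZMod 2))
    (hS : IsComplement (cubes e A) S) (hK : S.card = K) :
    ∃ (x : Fin n → ZMod 2) (V : Submodule (ZMod 2) (Fin n → ZMod 2)),
      n ≤ Module.finrank (ZMod 2) V + (K - 1) ∧ ∀ v ∈ V, x + v ∈ A + A := by
  classical
  obtain ⟨a, ha, b, hb, h⟩ := two _ S hS hK
  rw [mem_cubes] at ha hb
  obtain ⟨x₁, h₁⟩ := ha
  obtain ⟨x₂, h₂⟩ := hb
  obtain ⟨U, hU⟩ : ∃ U : Finset (Fin n), U = Finset.univ.filter fun i => a i = 0 ∧ b i = 0 := ⟨_, rfl⟩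
  rw [← hU] at h
  refine ⟨x₁ + x₂, (vanish U).map e.symm.toLinearMap, ?_, ?_⟩
  · have h4 : Module.finrank (ZMod 2) ((vanish U).map e.symm.toLinearMap) = Module.finrank (ZMod 2) (vanish U) :=
      (e.symm.submoduleMap (vanish U)).finrank_eq.symm
    rw [h4]
    have h5 := codim_vanish U
    omega
  · intro v hv
    rw [Submodule.mem_map] at hv
    obtain ⟨w, hw, rfl⟩ := hv
    have key : ∀ s t : ZMod 2, ¬ s = 0 → t = 0 ∨ t = s := by decide
    obtain ⟨p, hp⟩ : ∃ p : Fin n → ZMod 2, p = fun i => if a i = 0 then 0 else w i := ⟨_, rfl⟩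
    obtain ⟨q, hq⟩ : ∃ q : Fin n → ZMod 2, q = fun i => if a i = 0 then w i else 0 := ⟨_, rfl⟩
    have hpa : ∀ i, p i = 0 ∨ p i = a i := by
      intro i
      by_cases h1 : a i = 0
      · left
        rw [hp]
        exact if_pos h1
      · have h2 : p i = w i := by
          rw [hp]
          exact if_neg h1
        rw [h2]
        exact key _ _ h1
    have hqb : ∀ i, q i = 0 ∨ q i = b i := by
      intro i
      by_cases h1 : a i = 0
      · have h2 : q i = w i := by
          rw [hq]
          exact if_pos h1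
        rw [h2]
        by_cases h3 : b i = 0
        · left
          exact hw i (by rw [hU, Finset.mem_filter]; exact ⟨Finset.mem_univ _, h1, h3⟩)
        · exact key _ _ h3
      · left
        rw [hq]
        exact if_neg h1
    have hpq : w = p + q := by
      funext i
      rw [Pi.add_apply, hp, hq]
      by_cases h1 : a i = 0
      · simp [h1]
      · simp [h1]
    have h7 : x₁ + x₂ + e.symm.toLinearMap w = (x₁ + e.symm p) + (x₂ + e.symm q) := by
      rw [hpq]
      show x₁ + x₂ + e.symm (p + q) = _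
      rw [map_add]
      abel
    rw [h7]
    exact Finset.add_mem_add (h₁ p hpa) (h₂ q hqb)

/-- **Monotone sets with a small additive complement.** -/
theorem result :
    -- (1) sets whose family of cubes has a small additive complement
    (∀ (n K : ℕ) (e : (Fin n → ZMod 2) ≃ₗ[ZMod 2] (Fin n → ZMod 2)) (A S : Finset (Fin n → ZMod 2)),
      S.card = K → IsComplement (cubes e A) S →
      ∃ (x : Fin n → ZMod 2) (V : Submodule (ZMod 2) (Fin n → ZMod 2)),
        n ≤ Module.finrank (ZMod 2) V + (K - 1) ∧ ∀ v ∈ V, x + v ∈ A + A) ∧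
    -- (2) monotone sets with a small additive complement
    (∀ (n K : ℕ) (e : (Fin n → ZMod 2) ≃ₗ[ZMod 2] (Fin n → ZMod 2)) (x₀ : Fin n → ZMod 2)
      (A A' S : Finset (Fin n → ZMod 2)), S.card = K → A' ⊆ A → DownSetFor e x₀ A' → IsComplement A' S →
      ∃ (x : Fin n → ZMod 2) (V : Submodule (ZMod 2) (Fin n → ZMod 2)),
        n ≤ Module.finrank (ZMod 2) V + (K - 1) ∧ ∀ v ∈ V, x + v ∈ A + A) ∧
    -- (3) all sets with a small additive complement
    (∀ (n K : ℕ) (e : (Fin n → ZMod 2) ≃ₗ[ZMod 2] (Fin n → ZMod 2)) (A S : Finset (Fin n → ZMod 2)),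
      S.card = K → IsComplement A S →
      ∃ x ∈ A + A, (Finset.univ.filter fun i => e x i = 0).card ≤ K - 1) := by
  classical
  refine ⟨fun n K e A S hK hS => main e A S hS hK, ?_, fun n K e A S hK hS => ?_⟩
  swap
  · obtain ⟨a, ha, b, hb, h⟩ := ones e A S hS hK
    exact ⟨a + b, Finset.add_mem_add ha hb, h⟩
  intro n K e x₀ A A' S hK hA hdown hS
  have hinj : Function.Injective fun x : Fin n → ZMod 2 => e x := e.injective
  obtain ⟨x, V, h1, h2⟩ := main (K := K) e A' (S.image fun x => e x) (by
    intro y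
    obtain ⟨a, ha, s, hs, h⟩ := hS (e.symm y + x₀)
    refine ⟨e (a + x₀), ?_, e s, Finset.mem_image_of_mem _ hs, ?_⟩
    · rw [mem_cubes]
      refine ⟨x₀, fun v hv => ?_⟩
      have h1 := hdown (e (a + x₀)) (Finset.mem_image_of_mem _ ha) v hv
      rw [Finset.mem_image] at h1
      obtain ⟨b, hb, rfl⟩ := h1
      have h2 : x₀ + e.symm (e (b + x₀)) = b := by
        rw [e.symm_apply_apply, add_comm b x₀, ← add_assoc, add_self2, zero_add]
      rw [h2]
      exact hb
    · rw [← map_add]
      have h3 : a + x₀ + s = e.symm y := by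
        have h4 : a + x₀ + s = (a + s) + x₀ := by abel
        rw [h4, ← h, add_assoc, add_self2, add_zero]
      rw [h3, e.apply_symm_apply]) (by
    rw [Finset.card_image_of_injective _ hinj]
    exact hK)
  exact ⟨x, V, h1, fun v hv => Finset.add_subset_add hA hA (h2 v hv)⟩

end Pool.Agent.Results.MP_73b4f2_co.MonotoneSets
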